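import Mathlib

/-!
# The well-ordered set of the ordinals below `𝔠⁺`
-/

set_option autoImplicit false

open Set Cardinal

namespace Pool.Agent.J6H38.CM

/-- the set of the ordinals below `𝔠⁺` -/
def K : Type := (Order.succ (Cardinal.continuum : Cardinal.{0})).ord.ToType

noncomputable instance : LinearOrder K :=
  inferInstanceAs (LinearOrder (Order.succ (Cardinal.continuum : Cardinal.{0})).ord.ToType)

instance : WellFoundedLT K :=
  inferInstanceAs (WellFoundedLT (Order.succ (Cardinal.continuum : Cardinal.{0})).ord.ToType)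

theorem mk_K : #K = Order.succ 𝔠 := mk_ord_toType _

theorem mk_Iio (γ : K) : #(Iio γ) ≤ 𝔠 := by
  have h : #(Iio γ) < #K := by
    refine mk_Iio_lt γ ?_
    rw [mk_K]
    exact (Ordinal.type_toType _).symm
  rw [mk_K] at h
  exact Order.lt_succ_iff.1 h

theorem mk_Iic (γ : K) : #(Iic γ) ≤ 𝔠 := by
  rw [← Set.Iio_insert]
  refine mk_insert_le.trans ?_
  calc #(Iio γ) + 1 ≤ 𝔠 + 𝔠 := add_le_add (mk_Iio γ) (one_le_aleph0.trans aleph0_le_continuum)
    _ = 𝔠 := add_eq_self aleph0_le_continuum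

theorem bdd {A : Type} (hA : #A ≤ 𝔠) (f : A → K) : ∃ γ, ∀ a, f a < γ := by
  by_contra hcon
  push Not at hcon
  have h1 : (univ : Set K) ⊆ ⋃ a, Iic (f a) := by
    intro γ _
    obtain ⟨a, ha⟩ := hcon γ
    exact mem_iUnion.2 ⟨a, ha⟩
  have h2 : #K ≤ 𝔠 := by
    calc #K = #(univ : Set K) := mk_univ.symm
      _ ≤ #(⋃ a, Iic (f a) : Set K) := mk_le_mk_of_subset h1
      _ ≤ Cardinal.sum fun a => #(Iic (f a)) := mk_iUnion_le_sum_mk
      _ ≤ Cardinal.sum fun _ : A => 𝔠 := Cardinal.sum_le_sum _ _ fun a => mk_Iic _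
      _ = #A * 𝔠 := Cardinal.sum_const' _ _
      _ ≤ 𝔠 * 𝔠 := mul_le_mul' hA le_rfl
      _ = 𝔠 := mul_eq_self aleph0_le_continuum
  rw [mk_K] at h2
  exact absurd h2 (not_le.2 (Order.lt_succ _))

theorem exists_l0 : ∃ l : K, 𝔠 ≤ #(Iio l) := by
  have h : (𝔠 : Cardinal.{0}) ≤ #K := by rw [mk_K]; exact Order.le_succ _
  obtain ⟨s, hs⟩ := le_mk_iff_exists_set.1 h
  obtain ⟨γ, hγ⟩ := bdd (A := s) hs.le (fun x => x.1)
  refine ⟨γ, hs.ge.trans (mk_le_mk_of_subset ?_)⟩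
  intro x hx
  exact hγ ⟨x, hx⟩

/-- an element of `K` with `𝔠` predecessors -/
noncomputable def l0 : K := exists_l0.choose

theorem l0_spec : 𝔠 ≤ #(Iio l0) := exists_l0.choose_spec

/-- every set of at most `𝔠` elements has a code in `K` below `l0` -/
theorem exists_code {A : Type} (hA : #A ≤ 𝔠) :
    ∃ f : A → K, Function.Injective f ∧ ∀ a, f a < l0 := by
  obtain ⟨e⟩ := Cardinal.le_def _ _ |>.1 (hA.trans l0_spec)
  exact ⟨fun a => (e a).1, fun a b h => e.injective (Subtype.ext h), fun a => (e a).2⟩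

/-- the ordinals `α < 𝔠⁺` of uncountable cofinality with `α ≥ l0` -/
def S : Set K := {α | l0 ≤ α ∧ ∀ m : ℕ → K, (∀ n, m n < α) → ∃ γ < α, ∀ n, m n < γ}

theorem exists_closed (F : K → K) : ∃ δ ∈ S, ∀ γ < δ, F γ < δ := by
  classical
  set C : Set K := {δ | l0 ≤ δ ∧ ∀ γ < δ, F γ < δ} with hC
  -- closure points are unbounded
  have hCu : ∀ x, ∃ δ ∈ C, x < δ := by
    intro x
    have hB : ∀ γ : K, ∃ β, γ < β ∧ ∀ ξ ≤ γ, F ξ < β := by
      intro γ
      obtain ⟨β, hβ⟩ := bdd (A := Iic γ) (mk_Iic γ) (fun ξ => max (F ξ.1) γ)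
      refine ⟨β, (le_max_right _ _).trans_lt (hβ ⟨γ, mem_Iic.2 le_rfl⟩), fun ξ hξ => ?_⟩
      exact (le_max_left _ _).trans_lt (hβ ⟨ξ, hξ⟩)
    choose B hB1 hB2 using hB
    let g : ℕ → K := fun n => Nat.rec (max x l0) (fun _ y => B y) n
    have hg : ∀ n, g (n + 1) = B (g n) := fun n => rfl
    obtain ⟨β, hβ⟩ := bdd (A := ℕ) (by simpa using aleph0_le_continuum) g
    have hne : {y : K | ∀ n, g n ≤ y}.Nonempty := ⟨β, fun n => (hβ n).le⟩
    set δ := wellFounded_lt.min {y : K | ∀ n, g n ≤ y} hne with hδ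
    have h1 : ∀ n, g n ≤ δ := wellFounded_lt.min_mem _ hne
    have h2 : ∀ ξ < δ, ∃ n, ξ < g n := by
      intro ξ hξ
      rcases Classical.em (∃ n, ξ < g n) with hcon | hcon
      · exact hcon
      · push Not at hcon
        exact absurd hξ
          (wellFounded_lt.not_lt_min _ (show ξ ∈ {y : K | ∀ n, g n ≤ y} from hcon))
    refine ⟨δ, ⟨(le_max_right x l0).trans (h1 0), fun ξ hξ => ?_⟩, ?_⟩
    · obtain ⟨n, hn⟩ := h2 ξ hξ
      exact (hB2 (g n) ξ hn.le).trans_le (h1 (n + 1))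
    · exact (le_max_left x l0).trans_lt ((hB1 (g 0)).trans_le (h1 1))
  have hCc : 𝔠 < #C := by
    by_contra hcon
    obtain ⟨γ, hγ⟩ := bdd (A := C) (not_lt.1 hcon) (fun x => x.1)
    obtain ⟨δ, hδ, hδ'⟩ := hCu γ
    exact absurd (hγ ⟨δ, hδ⟩) (not_lt.2 hδ'.le)
  have hne : {δ : K | ¬ (C ∩ Iio δ).Countable}.Nonempty := by
    obtain ⟨p, hp, hp'⟩ := le_mk_iff_exists_subset.1 hCc.le
    obtain ⟨γ, hγ⟩ := bdd (A := p) hp'.le (fun x => x.1)
    refine ⟨γ, fun hc => ?_⟩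
    have h3 : p ⊆ C ∩ Iio γ := fun x hx => ⟨hp hx, hγ ⟨x, hx⟩⟩
    have h4 := (hc.mono h3).le_aleph0
    rw [hp'] at h4
    exact absurd h4 (not_le.2 aleph0_lt_continuum)
  set δ := wellFounded_lt.min _ hne with hδ
  have h1 : ¬ (C ∩ Iio δ).Countable := wellFounded_lt.min_mem _ hne
  have h2 : ∀ γ < δ, (C ∩ Iio γ).Countable := by
    intro γ hγ
    by_contra hcon
    exact wellFounded_lt.not_lt_min _ (show γ ∈ {δ : K | ¬ (C ∩ Iio δ).Countable} from hcon) hγ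
  have h3 : ∀ γ < δ, ∃ c ∈ C, γ < c ∧ c < δ := by
    intro γ hγ
    by_contra hcon
    push Not at hcon
    apply h1
    refine ((h2 γ hγ).union (Set.countable_singleton γ)).mono ?_
    rintro c ⟨hc, hcδ⟩
    rcases lt_trichotomy c γ with h | h | h
    · exact Or.inl ⟨hc, h⟩
    · exact Or.inr h
    · exact absurd hcδ (not_lt.2 (hcon c hc h))
  have h4 : l0 < δ := by
    by_contra hcon
    apply h1
    have : C ∩ Iio δ = ∅ := by
      rw [eq_empty_iff_forall_notMem]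
      rintro c ⟨hc, hcδ⟩
      exact hcon (hc.1.trans_lt hcδ)
    rw [this]
    exact countable_empty
  refine ⟨δ, ⟨h4.le, fun m hm => ?_⟩, fun γ hγ => ?_⟩
  · by_contra hcon
    push Not at hcon
    choose c hc hc1 hc2 using fun n => h3 (m n) (hm n)
    apply h1
    refine (Set.countable_iUnion fun n => h2 (c n) (hc2 n)).mono ?_
    rintro x ⟨hx, hxδ⟩
    obtain ⟨n, hn⟩ := hcon x hxδ
    exact mem_iUnion.2 ⟨n, hx, hn.trans_lt (hc1 n)⟩
  · obtain ⟨c, hc, hc1, hc2⟩ := h3 γ hγ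
    exact (hc.2 γ hc1).trans hc2

theorem S_nonempty : S.Nonempty := by
  obtain ⟨δ, hδ, _⟩ := exists_closed id
  exact ⟨δ, hδ⟩

theorem l0_le {α : K} (h : α ∈ S) : l0 ≤ α := h.1

end Pool.Agent.J6H38.CM
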