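import Pool.Agent.J6H38.CM.A
import Pool.Agent.Helper70.RS3

/-!
# The spaces `Y` and `Z`
-/

set_option autoImplicit false

open Set Cardinal Filter
open Pool.Agent.Helper70.RS

namespace Pool.Agent.J6H38.CM

/-- sequences in `S` -/
abbrev Lam : Type := ℕ → S

/-- the non-isolated points of `Y` -/
abbrev T : Type := Lam × ℕ

/-- the block of a point -/
def s (t : T) : K := (t.1 t.2 : K)

theorem s_mem (t : T) : s t ∈ S := (t.1 t.2).2

theorem l0_le_s (t : T) : l0 ≤ s t := (s_mem t).1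

/-- regressive functions -/
def H : Type := {h : T → K // ∀ t, h t < s t}

/-- the isolated points of `Y`: pairs of labelled points of different blocks on which the common
labels agree -/
def I : Type := {p : (T × Finset H) × (T × Finset H) //
  p.1.1.2 = p.2.1.2 ∧ s p.1.1 ≠ s p.2.1 ∧ ∀ h ∈ p.1.2, h ∈ p.2.2 → h.1 p.1.1 = h.1 p.2.1}

/-- basic trace neighbourhoods -/
def Nb (t : T) (R : Finset H) : Set I :=
  {p | (p.1.1.1 = t ∧ R ⊆ p.1.1.2) ∨ (p.1.2.1 = t ∧ R ⊆ p.1.2.2)}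

theorem Nb_mono {t : T} {R R' : Finset H} (h : R ⊆ R') : Nb t R' ⊆ Nb t R := by
  rintro p (⟨h1, h2⟩ | ⟨h1, h2⟩)
  · exact Or.inl ⟨h1, h.trans h2⟩
  · exact Or.inr ⟨h1, h.trans h2⟩

open Classical in
/-- the trace filter of a point of `Y` -/
def nY (t : T) : Filter I where
  sets := {A | ∃ R, Nb t R ⊆ A}
  univ_sets := ⟨∅, subset_univ _⟩
  sets_of_superset := by
    rintro A B ⟨R, hR⟩ hAB
    exact ⟨R, hR.trans hAB⟩
  inter_sets := by
    rintro A B ⟨R, hR⟩ ⟨R', hR'⟩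
    exact ⟨R ∪ R', subset_inter ((Nb_mono Finset.subset_union_left).trans hR)
      ((Nb_mono Finset.subset_union_right).trans hR')⟩

theorem mem_nY {t : T} {A : Set I} : A ∈ nY t ↔ ∃ R, Nb t R ⊆ A := Iff.rfl

theorem Nb_mem (t : T) (R : Finset H) : Nb t R ∈ nY t := ⟨R, Subset.rfl⟩

/-- the trace filter of a point of `Z` -/
def nZ (c : Lam) : Filter I where
  sets := {A | ∀ k, A ∈ nY (c, k)}
  univ_sets := fun _ => univ_mem
  sets_of_superset := fun h hAB k => mem_of_superset (h k) hAB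
  inter_sets := fun h h' k => inter_mem (h k) (h' k)

theorem mem_nZ {c : Lam} {A : Set I} : A ∈ nZ c ↔ ∀ k, A ∈ nY (c, k) := Iff.rfl

/-- a common point of two trace neighbourhoods -/
theorem pair {t t' : T} {R R' : Finset H} {p : I} (hp : p ∈ Nb t R) (hp' : p ∈ Nb t' R')
    (hne : t ≠ t') : t.2 = t'.2 ∧ s t ≠ s t' ∧ ∀ h ∈ R, h ∈ R' → h.1 t = h.1 t' := by
  obtain ⟨⟨⟨t1, R1⟩, ⟨t2, R2⟩⟩, h1, h2, h3⟩ := p
  simp only at h1 h2 h3
  rcases hp with ⟨ha, hb⟩ | ⟨ha, hb⟩ <;> rcases hp' with ⟨hc, hd⟩ | ⟨hc, hd⟩ <;>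
    simp only at ha hb hc hd
  · exact absurd (ha.symm.trans hc) hne
  · subst ha hc
    exact ⟨h1, h2, fun h hh hh' => h3 h (hb hh) (hd hh')⟩
  · subst ha hc
    exact ⟨h1.symm, fun h => h2 h.symm, fun h hh hh' => (h3 h (hd hh') (hb hh)).symm⟩
  · exact absurd (ha.symm.trans hc) hne

theorem eq_of_mem {t : T} {R : Finset H} {p : I} (hp : p ∈ Nb t R) :
    t = p.1.1.1 ∨ t = p.1.2.1 := by
  rcases hp with ⟨h, _⟩ | ⟨h, _⟩
  · exact Or.inl h.symm
  · exact Or.inr h.symm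

theorem mem_Nb_of_compat {t t' : T} {R R' : Finset H} (h1 : t.2 = t'.2) (h2 : s t ≠ s t')
    (h3 : ∀ h ∈ R, h ∈ R' → h.1 t = h.1 t') : (Nb t R ∩ Nb t' R').Nonempty :=
  ⟨⟨((t, R), (t', R')), h1, h2, h3⟩, Or.inl ⟨rfl, Finset.Subset.refl _⟩,
    Or.inr ⟨rfl, Finset.Subset.refl _⟩⟩

instance : Nonempty S := S_nonempty.to_subtype

instance H_inf : Infinite H := by
  have h1 : Infinite (Iio l0) := by
    rw [Cardinal.infinite_iff]
    exact aleph0_le_continuum.trans l0_spec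
  let f : Iio l0 → H := fun ξ => ⟨fun _ => ξ.1, fun t => (mem_Iio.1 ξ.2).trans_le (l0_le_s t)⟩
  refine Infinite.of_injective f ?_
  intro ξ η h
  have h2 := congrFun (congrArg Subtype.val h) ((fun _ => Classical.arbitrary S, 0) : T)
  exact Subtype.ext h2

theorem nY_compl (t : T) (p : I) : ({p}ᶜ : Set I) ∈ nY t := by
  classical
  obtain ⟨h, hh⟩ := Infinite.exists_notMem_finset (p.1.1.2 ∪ p.1.2.2)
  refine ⟨{h}, ?_⟩
  rintro q hq (rfl : q = p)
  apply hh
  rw [Finset.mem_union]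
  rcases hq with ⟨_, h1⟩ | ⟨_, h1⟩
  · exact Or.inl (h1 (Finset.mem_singleton_self _))
  · exact Or.inr (h1 (Finset.mem_singleton_self _))

theorem nY_card (t : T) (j : ℕ) : {p : I | j < p.1.1.2.card + p.1.2.2.card} ∈ nY t := by
  obtain ⟨R, hR⟩ := Infinite.exists_subset_card_eq H (j + 1)
  refine ⟨R, ?_⟩
  rintro q (⟨_, h1⟩ | ⟨_, h1⟩)
  · have := Finset.card_le_card h1
    simp only [mem_setOf_eq]
    omega
  · have := Finset.card_le_card h1
    simp only [mem_setOf_eq]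
    omega

/-- functions with at most `𝔠` values are separated by one regressive function -/
theorem exists_H_of_small {A : Type} (hA : #A ≤ 𝔠) (u : T → A) :
    ∃ h : H, ∀ t t', h.1 t = h.1 t' → u t = u t' := by
  obtain ⟨f, hf, hf'⟩ := exists_code hA
  exact ⟨⟨fun t => f (u t), fun t => (hf' _).trans_le (l0_le_s t)⟩, fun t t' h => hf h⟩

theorem nY_sep (A : Set T) : ∃ B : Set I, (∀ t ∈ A, B ∈ nY t) ∧ ∀ t ∉ A, Bᶜ ∈ nY t := by
  classical
  obtain ⟨h, hh⟩ := exists_H_of_small (A := Prop) (by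
    rw [mk_Prop]; exact (Cardinal.nat_lt_aleph0 2).le.trans aleph0_le_continuum)
    (fun t => t ∈ A)
  refine ⟨⋃ t ∈ A, Nb t {h}, fun t ht => ?_, fun t ht => ?_⟩
  · exact mem_of_superset (Nb_mem t {h}) (subset_biUnion_of_mem (u := fun t => Nb t {h}) ht)
  · refine mem_of_superset (Nb_mem t {h}) ?_
    intro p hp hp'
    rw [mem_iUnion₂] at hp'
    obtain ⟨t', ht', hp'⟩ := hp'
    have hne : t ≠ t' := fun e => ht (e ▸ ht')
    have h3 := (pair hp hp' hne).2.2 h (Finset.mem_singleton_self _) (Finset.mem_singleton_self _)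
    have h4 : (t ∈ A) = (t' ∈ A) := hh t t' h3
    exact ht (h4 ▸ ht')

theorem Y_t35 : T35Space (Sp nY) := Sp.t35 nY_compl nY_sep

theorem Z_t35 : T35Space (Sp nZ) := by
  refine Sp.t35 (fun c p k => nY_compl _ p) (fun A => ?_)
  obtain ⟨B, h1, h2⟩ := nY_sep {t | t.1 ∈ A}
  exact ⟨B, fun c hc k => h1 (c, k) hc, fun c hc k => h2 (c, k) hc⟩

/-- the separation lemma: let `d : T → D`. Suppose that for every `t` either `s t ≤ γ₀`, or
`d t` lies in one of the small sets `E γ` with `γ < s t`. Then `d` is separated by two regressive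
functions -/
theorem sep {D : Type} (d : T → D) (γ₀ : K) (E : K → Set D) (hE : ∀ γ, #(E γ) ≤ 𝔠)
    (hd : ∀ t, s t ≤ γ₀ ∨ ∃ γ < s t, d t ∈ E γ) :
    ∃ R : Finset H, ∀ t t', s t ≠ s t' → (∀ h ∈ R, h.1 t = h.1 t') → d t = d t' := by
  classical
  -- codes
  have hcode : ∀ γ, ∃ f : (Iic γ₀ ⊕ E γ) → K, Function.Injective f ∧ ∀ a, f a < l0 := by
    intro γ
    refine exists_code ?_
    rw [mk_sum, lift_id, lift_id]
    exact (add_le_add (mk_Iic γ₀) (hE γ)).trans (add_eq_self aleph0_le_continuum).le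
  choose f hf hf' using hcode
  -- the base point
  obtain ⟨z, hz⟩ : ∃ z : K, z < l0 := by
    have h1 : Nonempty (Iio l0) := by
      rw [← mk_ne_zero_iff]
      intro h
      have := l0_spec
      rw [h] at this
      exact absurd this (not_le.2 (aleph0_pos.trans_le aleph0_le_continuum))
    exact ⟨h1.some.1, h1.some.2⟩
  have hsel : ∀ t, ∃ (γ : K) (a : Iic γ₀ ⊕ E γ), γ < s t ∧
      ((∃ h : s t ≤ γ₀, a = Sum.inl ⟨s t, h⟩) ∨ ∃ h : d t ∈ E γ, a = Sum.inr ⟨d t, h⟩) ∧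
      (s t ≤ γ₀ → γ = z) ∧ (s t ≤ γ₀ → ∃ h : s t ≤ γ₀, a = Sum.inl ⟨s t, h⟩) := by
    intro t
    by_cases h : s t ≤ γ₀
    · exact ⟨z, Sum.inl ⟨s t, h⟩, hz.trans_le (l0_le_s t), Or.inl ⟨h, rfl⟩, fun _ => rfl,
        fun _ => ⟨h, rfl⟩⟩
    · rcases hd t with h' | ⟨γ, hγ, h'⟩
      · exact absurd h' h
      · exact ⟨γ, Sum.inr ⟨d t, h'⟩, hγ, Or.inr ⟨h', rfl⟩, fun h'' => absurd h'' h,
          fun h'' => absurd h'' h⟩
  choose γ a hγ ha _ _ using hsel
  let hA : H := ⟨γ, hγ⟩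
  let hB : H := ⟨fun t => f (γ t) (a t), fun t => (hf' _ _).trans_le (l0_le_s t)⟩
  refine ⟨{hA, hB}, fun t t' hst h => ?_⟩
  have e1 : γ t = γ t' := h hA (by simp)
  have e2 : f (γ t) (a t) = f (γ t') (a t') := h hB (by simp)
  have key : ∀ (g g' : K) (x : Iic γ₀ ⊕ E g) (x' : Iic γ₀ ⊕ E g'), g = g' → f g x = f g' x' →
      ((∃ h : s t ≤ γ₀, x = Sum.inl ⟨s t, h⟩) ∨ ∃ h : d t ∈ E g, x = Sum.inr ⟨d t, h⟩) →
      ((∃ h : s t' ≤ γ₀, x' = Sum.inl ⟨s t', h⟩) ∨ ∃ h : d t' ∈ E g', x' = Sum.inr ⟨d t', h⟩) →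
      d t = d t' := by
    rintro g g' x x' rfl he hx hx'
    have e3 := hf g he
    subst e3
    rcases hx with ⟨h1, rfl⟩ | ⟨h1, rfl⟩ <;> rcases hx' with ⟨h2, h3⟩ | ⟨h2, h3⟩
    · have := Sum.inl_injective h3
      exact absurd (congrArg Subtype.val this) hst
    · cases h3
    · cases h3
    · exact congrArg Subtype.val (Sum.inr_injective h3)
  exact key _ _ _ _ e1 e2 (ha t) (ha t')

/-- two compatible labelled points in different blocks -/
theorem large (n : ℕ) (c : S → Lam) (hc : ∀ α, c α n = α) (R : S → Finset H) :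
    ∃ α β : S, α ≠ β ∧ ∀ h ∈ R α, h ∈ R β → h.1 (c α, n) = h.1 (c β, n) := by
  classical
  have hs : ∀ α : S, s (c α, n) = α := fun α => by
    show ((c α n : S) : K) = α
    rw [hc]
  -- the labels used below `γ`
  let Hb : K → Type := fun γ => (Σ β : {β : S // (β : K) < γ}, {h // h ∈ R β.1}) × Iio γ
  have hHb : ∀ γ, #(Finset (Hb γ)) ≤ 𝔠 := by
    intro γ
    have h1 : #{β : S // (β : K) < γ} ≤ 𝔠 := by
      refine (mk_le_of_injective (f := fun β : {β : S // (β : K) < γ} =>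
        (⟨β.1, β.2⟩ : Iio γ)) ?_).trans (mk_Iio γ)
      intro a b h
      have := congrArg Subtype.val h
      exact Subtype.ext (Subtype.ext this)
    have h2 : #(Σ β : {β : S // (β : K) < γ}, {h // h ∈ R β.1}) ≤ 𝔠 := by
      rw [mk_sigma]
      refine (Cardinal.sum_le_sum _ (fun _ => 𝔠) fun β => ?_).trans ?_
      · exact (Cardinal.lt_aleph0_of_finite _).le.trans aleph0_le_continuum
      · rw [Cardinal.sum_const']
        exact (mul_le_mul' h1 le_rfl).trans (mul_eq_self aleph0_le_continuum).le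
    have h3 : #(Hb γ) ≤ 𝔠 := by
      show #((Σ β : {β : S // (β : K) < γ}, {h // h ∈ R β.1}) × Iio γ) ≤ 𝔠
      rw [mk_prod, lift_id, lift_id]
      exact (mul_le_mul' h2 (mk_Iio γ)).trans (mul_eq_self aleph0_le_continuum).le
    rcases finite_or_infinite (Hb γ) with hf | hi
    · exact (Cardinal.lt_aleph0_of_finite _).le.trans aleph0_le_continuum
    · rw [mk_finset_of_infinite]
      exact h3
  -- realizations
  let Real : (γ : K) → Finset (Hb γ) → S → Prop := fun γ r β =>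
    ∀ x ∈ r, x.1.2.1 ∈ R β ∧ x.1.2.1.1 (c β, n) = x.2.1
  have hΘ : ∀ γ (r : Finset (Hb γ)), ∃ β : S, (∃ β', Real γ r β') → Real γ r β := by
    intro γ r
    by_cases h : ∃ β', Real γ r β'
    · exact ⟨h.choose, fun _ => h.choose_spec⟩
    · exact ⟨Classical.arbitrary S, fun h' => absurd h' h⟩
  choose Θ hΘ using hΘ
  have hF : ∀ γ : K, ∃ F : K, γ < F ∧ ∀ r, (Θ γ r : K) < F := by
    intro γ
    obtain ⟨F, hF⟩ := bdd (A := Option (Finset (Hb γ))) (by
      rw [mk_option]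
      exact (add_le_add (hHb γ) (one_le_aleph0.trans aleph0_le_continuum)).trans
        (add_eq_self aleph0_le_continuum).le)
      (fun o => o.elim γ fun r => (Θ γ r : K))
    exact ⟨F, hF none, fun r => hF (some r)⟩
  choose F hF1 hF2 using hF
  obtain ⟨δ, hδS, hδ⟩ := exists_closed F
  set δ' : S := ⟨δ, hδS⟩ with hδ'
  -- the labels of `δ` that are used below
  set R' : Finset H := (R δ').filter fun h => ∃ β : S, (β : K) < δ ∧ h ∈ R β with hR'
  have h1 : ∀ h : {h // h ∈ R'}, ∃ β : S, (β : K) < δ ∧ h.1 ∈ R β := fun h =>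
    (Finset.mem_filter.1 h.2).2
  choose b hb1 hb2 using h1
  -- a bound below `δ`
  obtain ⟨γ, hγδ, hγ1, hγ2⟩ : ∃ γ < δ, (∀ h, (b h : K) < γ) ∧ ∀ h : {h // h ∈ R'},
      h.1.1 (c δ', n) < γ := by
    have hval : ∀ h : H, h.1 (c δ', n) < δ := fun h => by
      have := h.2 (c δ', n)
      rwa [hs] at this
    have hfin : ∀ (u : Finset K), (∀ x ∈ u, x < δ) → ∃ γ < δ, ∀ x ∈ u, x < γ := by
      intro u
      induction u using Finset.induction_on with
      | empty =>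
        intro _
        obtain ⟨z, hz⟩ : ∃ z : K, z < l0 := by
          have h1 : Nonempty (Iio l0) := by
            rw [← mk_ne_zero_iff]
            intro h
            have := l0_spec
            rw [h] at this
            exact absurd this (not_le.2 (aleph0_pos.trans_le aleph0_le_continuum))
          exact ⟨h1.some.1, h1.some.2⟩
        exact ⟨z, hz.trans_le hδS.1, fun x hx => absurd hx (Finset.notMem_empty x)⟩
      | insert a u _ ih =>
        intro h
        obtain ⟨γ, hγ, hγ'⟩ := ih fun x hx => h x (Finset.mem_insert_of_mem hx)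
        have ha := h a (Finset.mem_insert_self _ _)
        refine ⟨F (max a γ), hδ _ (max_lt ha hγ), fun x hx => ?_⟩
        rcases Finset.mem_insert.1 hx with rfl | hx
        · exact (le_max_left _ _).trans_lt (hF1 _)
        · exact ((hγ' x hx).trans_le (le_max_right _ _)).trans (hF1 _)
    obtain ⟨γ, hγ, hγ'⟩ := hfin (R'.attach.image (fun h => (b h : K)) ∪
      R'.attach.image (fun h => h.1.1 (c δ', n))) (by
        intro x hx
        rcases Finset.mem_union.1 hx with hx | hx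
        · obtain ⟨h, _, rfl⟩ := Finset.mem_image.1 hx
          exact hb1 h
        · obtain ⟨h, _, rfl⟩ := Finset.mem_image.1 hx
          exact hval h.1)
    refine ⟨γ, hγ, fun h => ?_, fun h => ?_⟩
    · exact hγ' _ (Finset.mem_union_left _ (Finset.mem_image_of_mem _ (Finset.mem_attach _ h)))
    · exact hγ' _ (Finset.mem_union_right _
        (Finset.mem_image.2 ⟨h, Finset.mem_attach _ h, rfl⟩))
  let r : Finset (Hb γ) := R'.attach.image fun h =>
    (⟨⟨b h, hγ1 h⟩, ⟨h.1, hb2 h⟩⟩, ⟨h.1.1 (c δ', n), hγ2 h⟩)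
  have hr : Real γ r δ' := by
    intro x hx
    obtain ⟨h, _, rfl⟩ := Finset.mem_image.1 hx
    exact ⟨(Finset.mem_filter.1 h.2).1, rfl⟩
  have hr' : Real γ r (Θ γ r) := hΘ γ r ⟨δ', hr⟩
  have hlt : (Θ γ r : K) < δ := (hF2 γ r).trans (hδ γ hγδ)
  refine ⟨Θ γ r, δ', fun e => ?_, fun h hh hh' => ?_⟩
  · have : (Θ γ r : K) = δ := congrArg Subtype.val e
    exact absurd this hlt.ne
  · have hm : h ∈ R' := Finset.mem_filter.2 ⟨hh', Θ γ r, hlt, hh⟩
    have h5 := hr' (⟨⟨b ⟨h, hm⟩, hγ1 ⟨h, hm⟩⟩, ⟨h, hb2 ⟨h, hm⟩⟩⟩, ⟨h.1 (c δ', n), hγ2 ⟨h, hm⟩⟩)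
      (Finset.mem_image.2 ⟨⟨h, hm⟩, Finset.mem_attach _ _, rfl⟩)
    exact h5.2

end Pool.Agent.J6H38.CM
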