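import Pool.Agent.J6H38.CM.A

/-!
# The Alexandroff duplicate of the Baire space `K ^ ω`
-/

set_option autoImplicit false

open Set Filter Topology

namespace Pool.Agent.J6H38.CM

/-- `K` with the discrete topology -/
instance : TopologicalSpace K := ⊥

instance : DiscreteTopology K := ⟨rfl⟩

/-- the Baire space of weight `𝔠⁺` -/
abbrev M : Type := ℕ → K

theorem M_metrizable : TopologicalSpace.MetrizableSpace M := by
  let _ := PiNat.metricSpace (E := fun _ : ℕ => K)
  infer_instance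

/-- the Alexandroff duplicate of `M`: the points `(m, true)` are isolated -/
def X : Type := M × Bool

/-- cylinder sets -/
def cyl (n : ℕ) (m : M) : Set X := {x | ∀ i < n, x.1 i = m i}

theorem mem_cyl {n : ℕ} {m : M} {x : X} : x ∈ cyl n m ↔ ∀ i < n, x.1 i = m i := Iff.rfl

theorem cyl_self (n : ℕ) (x : X) : x ∈ cyl n x.1 := fun _ _ => rfl

theorem cyl_mono {n n' : ℕ} (h : n ≤ n') (m : M) : cyl n' m ⊆ cyl n m :=
  fun _ hx i hi => hx i (hi.trans_le h)

instance : TopologicalSpace X where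
  IsOpen U := ∀ m : M, (m, false) ∈ U → ∃ n, ∀ x ∈ cyl n m, x ≠ (m, true) → x ∈ U
  isOpen_univ := fun _ _ => ⟨0, fun _ _ _ => trivial⟩
  isOpen_inter := fun U V hU hV m hm => by
    obtain ⟨n, hn⟩ := hU m hm.1
    obtain ⟨n', hn'⟩ := hV m hm.2
    exact ⟨max n n', fun x hx hne => ⟨hn x (cyl_mono (le_max_left _ _) m hx) hne,
      hn' x (cyl_mono (le_max_right _ _) m hx) hne⟩⟩
  isOpen_sUnion := fun 𝒰 h m hm => by
    obtain ⟨U, hU, hmU⟩ := hm
    obtain ⟨n, hn⟩ := h U hU m hmU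
    exact ⟨n, fun x hx hne => ⟨U, hU, hn x hx hne⟩⟩

theorem X_isOpen_iff {U : Set X} : IsOpen U ↔
    ∀ m : M, ((m, false) : X) ∈ U → ∃ n, ∀ x ∈ cyl n m, x ≠ ((m, true) : X) → x ∈ U := Iff.rfl

theorem cyl_open (n : ℕ) (m : M) : IsOpen (cyl n m) := by
  rw [X_isOpen_iff]
  intro m' hm'
  exact ⟨n, fun x hx _ i hi => (hx i hi).trans (hm' i hi)⟩

theorem cyl_closed (n : ℕ) (m : M) : IsClosed (cyl n m) := by
  rw [← isOpen_compl_iff, X_isOpen_iff]
  intro m' hm'
  refine ⟨n, fun x hx _ hx' => hm' fun i hi => ?_⟩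
  exact ((hx i hi).symm.trans (hx' i hi) : m' i = m i)

theorem pt_open (m : M) : IsOpen ({((m, true) : X)} : Set X) := by
  rw [X_isOpen_iff]
  intro m' hm'
  exact absurd (congrArg Prod.snd hm' : false = true) Bool.false_ne_true

theorem exists_ne {m m' : M} (h : m ≠ m') : ∃ n, ∀ x ∈ cyl n m, x ∉ cyl n m' := by
  obtain ⟨i, hi⟩ := Function.ne_iff.1 h
  exact ⟨i + 1, fun x hx hx' => hi ((hx i (Nat.lt_succ_self i)).symm.trans
    (hx' i (Nat.lt_succ_self i)))⟩

theorem pt_closed (x : X) : IsClosed ({x} : Set X) := by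
  obtain ⟨m, b⟩ := x
  rw [← isOpen_compl_iff, X_isOpen_iff]
  intro m' hm'
  by_cases h : m' = m
  · subst h
    refine ⟨0, fun y _ hy hy' => ?_⟩
    cases b with
    | true => exact hy hy'
    | false => exact hm' rfl
  · obtain ⟨n, hn⟩ := exists_ne h
    refine ⟨n, fun y hy _ hy' => hn y hy ?_⟩
    rw [mem_singleton_iff.1 hy']
    exact cyl_self n _

instance : T2Space X := by
  refine ⟨?_⟩
  rintro ⟨m, b⟩ ⟨m', b'⟩ hne
  by_cases h : m = m'
  · subst h
    have hb : b ≠ b' := fun e => hne (by rw [e])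
    cases b with
    | true =>
      refine ⟨{(m, true)}, {(m, true)}ᶜ, pt_open m, (pt_closed _).isOpen_compl, rfl, ?_,
        disjoint_compl_right⟩
      exact fun e => hne (mem_singleton_iff.1 e).symm
    | false =>
      cases b' with
      | true =>
        refine ⟨{(m, true)}ᶜ, {(m, true)}, (pt_closed _).isOpen_compl, pt_open m, ?_, rfl,
          disjoint_compl_left⟩
        exact fun e => hne (mem_singleton_iff.1 e)
      | false => exact absurd rfl hb
  · obtain ⟨n, hn⟩ := exists_ne h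
    refine ⟨cyl n m, cyl n m', cyl_open _ _, cyl_open _ _, cyl_self n (m, b),
      cyl_self n (m', b'), ?_⟩
    rw [disjoint_left]
    exact hn

/-- the projection onto `M` -/
def g : X → M := fun x => x.1

theorem g_cont : Continuous g := by
  rw [continuous_pi_iff]
  intro i
  rw [continuous_discrete_rng]
  intro a
  rw [X_isOpen_iff]
  intro m hm
  exact ⟨i + 1, fun x hx _ => (hx i (Nat.lt_succ_self i)).trans hm⟩

theorem g_surj : Function.Surjective g := fun m => ⟨(m, true), rfl⟩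

theorem g_closed : IsClosedMap g := by
  intro F hF
  rw [← isOpen_compl_iff, isOpen_iff_mem_nhds]
  intro m hm
  have h1 : ((m, false) : X) ∈ Fᶜ := fun h => hm ⟨_, h, rfl⟩
  have h2 : ((m, true) : X) ∈ Fᶜ := fun h => hm ⟨_, h, rfl⟩
  obtain ⟨n, hn⟩ := (X_isOpen_iff.1 hF.isOpen_compl) m h1
  have h3 : IsOpen {m' : M | ∀ i < n, m' i = m i} := by
    have : {m' : M | ∀ i < n, m' i = m i} = ⋂ i ∈ Finset.range n, (fun m' : M => m' i) ⁻¹' {m i} := by
      ext m'
      simp
    rw [this]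
    exact isOpen_biInter_finset fun i _ => (isOpen_discrete _).preimage (continuous_apply i)
  refine mem_of_superset (h3.mem_nhds fun i _ => rfl) ?_
  rintro m' hm' ⟨x, hx, rfl⟩
  by_cases h : x = (m, true)
  · exact h2 (h ▸ hx)
  · exact hn x hm' h hx

theorem g_fibre (m : M) : IsCompact (g ⁻¹' {m}) := by
  have : g ⁻¹' {m} ⊆ ({(m, true), (m, false)} : Set X) := by
    rintro ⟨m', b⟩ (rfl : m' = m)
    cases b
    · exact Or.inr rfl
    · exact Or.inl rfl
  exact ((Set.finite_singleton _).insert _).subset this |>.isCompact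

instance X_paracompact : ParacompactSpace X := by
  classical
  refine ⟨fun α U hU hcov => ?_⟩
  have hcov' : ∀ x, ∃ a, x ∈ U a := fun x => mem_iUnion.1 (by rw [hcov]; trivial)
  choose idx hidx using hcov'
  -- good cylinders
  let Good : ℕ → M → Prop := fun n m => ∃ (a : α) (m' : M), m' ∈ g '' cyl n m ∧
    ∀ x ∈ cyl n m, x ≠ ((m', true) : X) → x ∈ U a
  have hgood : ∀ m, ∃ n, Good n m := by
    intro m
    obtain ⟨n, hn⟩ := X_isOpen_iff.1 (hU (idx (m, false))) m (hidx (m, false))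
    exact ⟨n, idx (m, false), m, ⟨(m, false), cyl_self n (m, false), rfl⟩, hn⟩
  have hcyl : ∀ {n : ℕ} {m m' : M}, (∀ i < n, m i = m' i) → cyl n m = cyl n m' := by
    intro n m m' h
    ext x
    exact ⟨fun hx i hi => (hx i hi).trans (h i hi), fun hx i hi => (hx i hi).trans (h i hi).symm⟩
  let N : M → ℕ := fun m => Nat.find (hgood m)
  have hN : ∀ m, Good (N m) m := fun m => Nat.find_spec (hgood m)
  have hGood_congr : ∀ {n : ℕ} {m m' : M}, (∀ i < n, m i = m' i) → Good n m → Good n m' := by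
    intro n m m' h hg
    simp only [Good, hcyl h] at hg ⊢
    exact hg
  have hNeq : ∀ m m' : M, (∀ i < N m, m' i = m i) → N m' = N m := by
    intro m m' h
    have h1 : Good (N m) m' := hGood_congr (fun i hi => (h i hi).symm) (hN m)
    have h2 : N m' ≤ N m := Nat.find_min' _ h1
    refine le_antisymm h2 (Nat.find_min' _ ?_)
    exact hGood_congr (fun i hi => h i (hi.trans_le h2)) (hN m')
  -- the cylinder of a point, as a set
  let Q : M → Set X := fun m => cyl (N m) m
  have hQ : ∀ m m' : M, (Q m ∩ Q m').Nonempty → Q m = Q m' := by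
    rintro m m' ⟨x, hx, hx'⟩
    have h1 : N x.1 = N m := hNeq m x.1 hx
    have h2 : N x.1 = N m' := hNeq m' x.1 hx'
    show cyl (N m) m = cyl (N m') m'
    rw [← h1, ← h2]
    refine hcyl fun i hi => ?_
    rw [← hx i (h1 ▸ hi), ← hx' i (h2 ▸ hi)]
  have hQsel : ∀ A : {A : Set X // ∃ m, A = Q m}, ∃ (a : α) (m' : M), m' ∈ g '' A.1 ∧
      ∀ x ∈ A.1, x ≠ ((m', true) : X) → x ∈ U a := by
    rintro ⟨_, m, rfl⟩
    exact hN m
  choose a c hc1 hc2 using hQsel
  refine ⟨{A : Set X // ∃ m, A = Q m} ⊕ {A : Set X // ∃ m, A = Q m},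
    fun o => o.elim (fun A => A.1 \ {((c A, true) : X)}) (fun A => A.1 ∩ {((c A, true) : X)}),
    ?_, ?_, ?_, ?_⟩
  · rintro (⟨A, m, rfl⟩ | ⟨A, m, rfl⟩)
    · exact (cyl_open _ _).sdiff (pt_closed _)
    · exact (cyl_open _ _).inter (pt_open _)
  · rw [eq_univ_iff_forall]
    intro x
    rw [mem_iUnion]
    by_cases h : x = ((c ⟨Q x.1, x.1, rfl⟩, true) : X)
    · exact ⟨Sum.inr ⟨Q x.1, x.1, rfl⟩, cyl_self _ _, h⟩
    · exact ⟨Sum.inl ⟨Q x.1, x.1, rfl⟩, cyl_self _ _, h⟩
  · intro x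
    refine ⟨Q x.1, (cyl_open _ _).mem_nhds (cyl_self _ _), ?_⟩
    refine ((Set.finite_singleton (Sum.inl ⟨Q x.1, x.1, rfl⟩ :
      {A : Set X // ∃ m, A = Q m} ⊕ {A : Set X // ∃ m, A = Q m})).insert
        (Sum.inr ⟨Q x.1, x.1, rfl⟩)).subset ?_
    rintro (⟨A, m, rfl⟩ | ⟨A, m, rfl⟩) ⟨y, hy, hy'⟩
    · refine Or.inr ?_
      have := hQ m x.1 ⟨y, hy.1, hy'⟩
      exact congrArg Sum.inl (Subtype.ext this)
    · refine Or.inl ?_
      have := hQ m x.1 ⟨y, hy.1, hy'⟩
      exact congrArg Sum.inr (Subtype.ext this)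
  · rintro (A | A)
    · exact ⟨a A, fun x hx => hc2 A x hx.1 hx.2⟩
    · refine ⟨idx ((c A, true) : X), ?_⟩
      rintro x ⟨_, hx⟩
      rw [mem_singleton_iff.1 hx]
      exact hidx _

theorem X_normal : NormalSpace X := inferInstance

theorem X_t35 : T35Space X := inferInstance

end Pool.Agent.J6H38.CM
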