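import Pool.Agent.J6H38.CM.B
import Pool.Agent.J6H38.CM.C

/-!
# The product `X × Y` is normal
-/

set_option autoImplicit false

open Set Cardinal Filter Topology
open Pool.Agent.Helper70.RS

namespace Pool.Agent.J6H38.CM

/-- the space `Y` -/
abbrev Y : Type := Sp nY

/-- the space `Z` -/
abbrev Z : Type := Sp nZ

/-- the data of a cylinder: a point, the type of the cylinder without the duplicate of the point,
and the type of the duplicate of the point -/
abbrev Dt : Type := M × Bool × Bool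

/-- restriction of a sequence -/
def restr (n : ℕ) (m : M) : Fin n → K := fun i => m i

theorem restr_eq {n : ℕ} {m m' : M} : restr n m = restr n m' ↔ ∀ i < n, m i = m' i := by
  constructor
  · intro h i hi
    exact congrFun h ⟨i, hi⟩
  · intro h
    funext i
    exact h i i.2

theorem mem_cyl_iff {n : ℕ} {m : M} {x : X} : x ∈ cyl n m ↔ restr n x.1 = restr n m :=
  restr_eq.symm

/-- the region of the data -/
def Reg (n : ℕ) (d : Dt) : Set X :=
  {x | x ∈ cyl n d.1 ∧ ((x = (d.1, true) ∧ d.2.2 = true) ∨ (x ≠ (d.1, true) ∧ d.2.1 = true))}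

theorem Reg_open (n : ℕ) (d : Dt) : IsOpen (Reg n d) := by
  have h : Reg n d = (cyl n d.1 ∩ ({((d.1, true) : X)} ∩ {_x | d.2.2 = true})) ∪
      (cyl n d.1 ∩ ({((d.1, true) : X)}ᶜ ∩ {_x | d.2.1 = true})) := by
    ext x
    simp only [Reg, mem_ofPred_eq, mem_union, mem_inter_iff, mem_compl_iff]
    tauto
  rw [h]
  refine IsOpen.union ?_ ?_
  · exact (cyl_open _ _).inter ((pt_open _).inter isOpen_const)
  · exact (cyl_open _ _).inter ((pt_closed _).isOpen_compl.inter isOpen_const)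

theorem Reg_closed (n : ℕ) (d : Dt) : IsClosed (Reg n d) := by
  have h : Reg n d = (cyl n d.1 ∩ ({((d.1, true) : X)} ∩ {_x | d.2.2 = true})) ∪
      (cyl n d.1 ∩ ({((d.1, true) : X)}ᶜ ∩ {_x | d.2.1 = true})) := by
    ext x
    simp only [Reg, mem_ofPred_eq, mem_union, mem_inter_iff, mem_compl_iff]
    tauto
  rw [h]
  refine IsClosed.union ?_ ?_
  · exact (cyl_closed _ _).inter ((pt_closed _).inter isClosed_const)
  · exact (cyl_closed _ _).inter ((pt_open _).isClosed_compl.inter isClosed_const)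

/-- the conditions on the data -/
structure Good (E F : Set (X × Y)) (n : ℕ) (b : Fin n → K) (t : T) (d : Dt) (N : Set I) :
    Prop where
  res : restr n d.1 = b
  coord : (∀ i, d.1 i < s t) ∨ ∃ i, s t ≤ b i
  mem : N ∈ nY t
  free1 : ∀ x ∈ cyl n d.1, ∀ y ∈ bx (Sp.a nY t) N, x ∈ Reg n d → (x, y) ∉ F
  free2 : ∀ x ∈ cyl n d.1, ∀ y ∈ bx (Sp.a nY t) N, x ∉ Reg n d → (x, y) ∉ E

theorem nhds_a {O : Set (X × Y)} (hO : IsOpen O) {m : M} {t : T}
    (h : (((m, false) : X), Sp.a nY t) ∈ O) :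
    ∃ n, ∃ N ∈ nY t, ∀ x ∈ cyl n m, x ≠ ((m, true) : X) → ∀ y ∈ bx (Sp.a nY t) N, (x, y) ∈ O := by
  obtain ⟨U, V, hU, hV, h1, h2, h3⟩ := isOpen_prod_iff.1 hO _ _ h
  obtain ⟨n, hn⟩ := X_isOpen_iff.1 hU m h1
  obtain ⟨N, hN, hNV⟩ := exists_bx hV h2
  exact ⟨n, N, hN t rfl, fun x hx hne y hy => h3 ⟨hn x hx hne, hNV hy⟩⟩

theorem nhds_b {O : Set (X × Y)} (hO : IsOpen O) {x : X} {t : T}
    (h : (x, Sp.a nY t) ∈ O) : ∃ N ∈ nY t, ∀ y ∈ bx (Sp.a nY t) N, (x, y) ∈ O := by
  obtain ⟨U, V, hU, hV, h1, h2, h3⟩ := isOpen_prod_iff.1 hO _ _ h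
  obtain ⟨N, hN, hNV⟩ := exists_bx hV h2
  exact ⟨N, hN t rfl, fun y hy => h3 ⟨h1, hNV hy⟩⟩

/-- every point of `M` has a good cylinder -/
theorem exists_good {E F : Set (X × Y)} (hE : IsClosed E) (hF : IsClosed F) (hd : Disjoint E F)
    (t : T) (m : M) : ∃ n d N, Good E F n (restr n m) t d N := by
  classical
  -- the isolated point
  obtain ⟨τ', N', hN', h1', h2'⟩ : ∃ (τ' : Bool) (N' : Set I), N' ∈ nY t ∧
      (τ' = true → ∀ y ∈ bx (Sp.a nY t) N', (((m, true) : X), y) ∉ F) ∧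
      (τ' = false → ∀ y ∈ bx (Sp.a nY t) N', (((m, true) : X), y) ∉ E) := by
    by_cases h : (((m, true) : X), Sp.a nY t) ∈ F
    · have h' : (((m, true) : X), Sp.a nY t) ∈ Eᶜ := fun h' => disjoint_left.1 hd h' h
      obtain ⟨N, hN, hN'⟩ := nhds_b hE.isOpen_compl h'
      exact ⟨false, N, hN, fun h => absurd h Bool.false_ne_true, fun _ y hy => hN' y hy⟩
    · obtain ⟨N, hN, hN'⟩ := nhds_b hF.isOpen_compl (show _ ∈ Fᶜ from h)
      exact ⟨true, N, hN, fun _ y hy => hN' y hy, fun h => absurd h.symm Bool.false_ne_true⟩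
  -- the other points
  obtain ⟨τ, n0, N, hN, h1, h2⟩ : ∃ (τ : Bool) (n0 : ℕ) (N : Set I), N ∈ nY t ∧
      (τ = true → ∀ x ∈ cyl n0 m, x ≠ ((m, true) : X) → ∀ y ∈ bx (Sp.a nY t) N, (x, y) ∉ F) ∧
      (τ = false → ∀ x ∈ cyl n0 m, x ≠ ((m, true) : X) → ∀ y ∈ bx (Sp.a nY t) N, (x, y) ∉ E) := by
    by_cases h : (((m, false) : X), Sp.a nY t) ∈ F
    · have h' : (((m, false) : X), Sp.a nY t) ∈ Eᶜ := fun h' => disjoint_left.1 hd h' h
      obtain ⟨n, N, hN, hN'⟩ := nhds_a hE.isOpen_compl h'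
      exact ⟨false, n, N, hN, fun h => absurd h Bool.false_ne_true,
        fun _ x hx hne y hy => hN' x hx hne y hy⟩
    · obtain ⟨n, N, hN, hN'⟩ := nhds_a hF.isOpen_compl (show _ ∈ Fᶜ from h)
      exact ⟨true, n, N, hN, fun _ x hx hne y hy => hN' x hx hne y hy,
        fun h => absurd h.symm Bool.false_ne_true⟩
  -- the level
  obtain ⟨n, hn, hcoord⟩ : ∃ n, n0 ≤ n ∧ ((∀ i, m i < s t) ∨ ∃ i : Fin n, s t ≤ restr n m i) := by
    by_cases h : ∀ i, m i < s t
    · exact ⟨n0, le_rfl, Or.inl h⟩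
    · push Not at h
      obtain ⟨i, hi⟩ := h
      exact ⟨max n0 (i + 1), le_max_left _ _, Or.inr ⟨⟨i, lt_of_lt_of_le (Nat.lt_succ_self i)
        (le_max_right _ _)⟩, hi⟩⟩
  refine ⟨n, (m, τ, τ'), N ∩ N', rfl, hcoord, inter_mem hN hN', ?_, ?_⟩
  · rintro x hx y hy ⟨_, ⟨h3, h4⟩ | ⟨h3, h4⟩⟩
    · subst h3
      exact h1' h4 y (bx_mono _ inter_subset_right hy)
    · exact h1 h4 x (cyl_mono hn m hx) h3 y (bx_mono _ inter_subset_left hy)
  · intro x hx y hy hreg
    by_cases h3 : x = ((m, true) : X)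
    · have h4 : τ' = false := by
        by_contra h5
        exact hreg ⟨hx, Or.inl ⟨h3, by simpa using h5⟩⟩
      subst h3
      exact h2' h4 y (bx_mono _ inter_subset_right hy)
    · have h4 : τ = false := by
        by_contra h5
        exact hreg ⟨hx, Or.inr ⟨h3, by simpa using h5⟩⟩
      exact h2 h4 x (cyl_mono hn m hx) h3 y (bx_mono _ inter_subset_left hy)

/-- separation of the data -/
theorem sep_data {n : ℕ} (b : Fin n → K) (dat : T → Option Dt)
    (h : ∀ t d, dat t = some d → (∀ i, d.1 i < s t) ∨ ∃ i, s t ≤ b i) :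
    ∃ R : Finset H, ∀ t t', s t ≠ s t' → (∀ h ∈ R, h.1 t = h.1 t') → dat t = dat t' := by
  classical
  obtain ⟨γ₀, hγ₀⟩ := bdd (A := Fin n) ((lt_aleph0_of_finite _).le.trans aleph0_le_continuum) b
  let E : K → Set (Option Dt) := fun γ => {o | ∀ d, o = some d → ∀ i, d.1 i < γ}
  have hE : ∀ γ, #(E γ) ≤ 𝔠 := by
    intro γ
    have h1 : #(Option ((ℕ → Iio γ) × Bool × Bool)) ≤ 𝔠 := by
      have h2 : #(ℕ → Iio γ) ≤ 𝔠 := by
        have h3 : #(ℕ → Iio γ) = #(Iio γ) ^ #ℕ := by simp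
        rw [h3, mk_nat]
        calc #(Iio γ) ^ ℵ₀ ≤ 𝔠 ^ ℵ₀ := Cardinal.power_le_power_right (mk_Iio γ)
          _ = 𝔠 := continuum_power_aleph0
      have h4 : #(Bool × Bool) ≤ 𝔠 := (lt_aleph0_of_finite _).le.trans aleph0_le_continuum
      have h5 : #((ℕ → Iio γ) × Bool × Bool) ≤ 𝔠 := by
        rw [mk_prod, lift_id, lift_id]
        exact (mul_le_mul' h2 h4).trans (mul_eq_self aleph0_le_continuum).le
      rw [mk_option]
      exact (add_le_add h5 (one_le_aleph0.trans aleph0_le_continuum)).trans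
        (add_eq_self aleph0_le_continuum).le
    refine le_trans ?_ h1
    let f : E γ → Option ((ℕ → Iio γ) × Bool × Bool) := fun o =>
      match o with
      | ⟨none, _⟩ => none
      | ⟨some d, hd⟩ => some (fun i => ⟨d.1 i, hd d rfl i⟩, d.2)
    refine mk_le_of_injective (f := f) ?_
    rintro ⟨o, ho⟩ ⟨o', ho'⟩ h
    rcases o with _ | d <;> rcases o' with _ | d'
    · rfl
    · cases h
    · cases h
    · have h5 := Option.some_injective _ h
      have h6 : d.1 = d'.1 := by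
        funext i
        exact congrArg Subtype.val (congrFun (congrArg Prod.fst h5) i)
      have h7 : d.2 = d'.2 := (Prod.ext_iff.1 h5).2
      have h8 : d = d' := Prod.ext h6 h7
      subst h8
      rfl
  refine sep dat γ₀ E hE fun t => ?_
  -- a base point
  obtain ⟨z, hz⟩ : ∃ z : K, z < s t := by
    have h1 : Nonempty (Iio l0) := by
      rw [← mk_ne_zero_iff]
      intro h
      have := l0_spec
      rw [h] at this
      exact absurd this (not_le.2 (aleph0_pos.trans_le aleph0_le_continuum))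
    exact ⟨h1.some.1, (mem_Iio.1 h1.some.2).trans_le (l0_le_s t)⟩
  rcases hdt : dat t with _ | d
  · exact Or.inr ⟨z, hz, fun d hd => absurd hd (by simp)⟩
  · rcases h t d hdt with h1 | ⟨i, hi⟩
    · obtain ⟨γ, hγ, hγ'⟩ := (s_mem t).2 d.1 h1
      refine Or.inr ⟨γ, hγ, fun d' hd' i => ?_⟩
      rw [← Option.some_injective _ hd']
      exact hγ' i
    · exact Or.inl (hi.trans (hγ₀ i).le)

/-- the covering of the part over the non-isolated points -/
theorem cover_T {E F : Set (X × Y)} (hE : IsClosed E) (hF : IsClosed F) (hd : Disjoint E F) :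
    ∃ U : ℕ → Set (X × Y), (∀ z ∈ E, (∃ t, z.2 = Sp.a nY t) → ∃ n, z ∈ U n) ∧
      ∀ n, IsOpen (U n) ∧ Disjoint (closure (U n)) F := by
  classical
  have h1 : ∀ (n : ℕ) (b : Fin n → K) (t : T), ∃ (o : Option Dt) (N : Set I), N ∈ nY t ∧
      (∀ d, o = some d → Good E F n b t d N) ∧ (o = none → ¬ ∃ d N, Good E F n b t d N) := by
    intro n b t
    by_cases h : ∃ d N, Good E F n b t d N
    · obtain ⟨d, N, h'⟩ := h
      exact ⟨some d, N, h'.mem, fun d' hd' => by rw [← Option.some_injective _ hd']; exact h',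
        fun h => absurd h (by simp)⟩
    · exact ⟨none, univ, univ_mem, fun d' hd' => absurd hd' (by simp), fun _ => h⟩
  choose dat N hN hdat hnone using h1
  have h2 : ∀ (n : ℕ) (b : Fin n → K), ∃ R : Finset H, ∀ t t', s t ≠ s t' →
      (∀ h ∈ R, h.1 t = h.1 t') → dat n b t = dat n b t' := fun n b =>
    sep_data b (dat n b) fun t d hd => (hdat n b t d hd).coord
  choose R hR using h2
  let U : ℕ → Set (X × Y) := fun n => {z | ∃ t d, dat n (restr n z.1.1) t = some d ∧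
    z.1 ∈ Reg n d ∧ z.2 ∈ bx (Sp.a nY t) (N n (restr n z.1.1) t ∩ Nb t (R n (restr n z.1.1)))}
  refine ⟨U, ?_, fun n => ⟨?_, ?_⟩⟩
  · rintro ⟨x, y⟩ hz ⟨t, ht⟩
    simp only at ht
    subst ht
    obtain ⟨n, d, N', hg⟩ := exists_good hE hF hd t x.1
    refine ⟨n, ?_⟩
    rcases hdt : dat n (restr n x.1) t with _ | d'
    · exact absurd ⟨d, N', hg⟩ (hnone n _ t hdt)
    · have hg' := hdat n _ t d' hdt
      refine ⟨t, d', hdt, ?_, bx_self _ _⟩
      by_contra hreg
      exact hg'.free2 x (mem_cyl_iff.2 hg'.res.symm) _ (bx_self _ _) hreg hz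
  · rw [isOpen_iff_mem_nhds]
    rintro ⟨x, y⟩ ⟨t, d, hdt, hx, hy⟩
    have hg := hdat n _ t d hdt
    simp only at hdt hx hy
    have ho : IsOpen (Reg n d ×ˢ bx (Sp.a nY t) (N n (restr n x.1) t ∩
        Nb t (R n (restr n x.1)))) := by
      refine (Reg_open n d).prod (bx_open fun t' ht' => ?_)
      rw [← Sp.a_inj.1 ht']
      exact inter_mem (hN _ _ _) (Nb_mem _ _)
    refine mem_of_superset (ho.mem_nhds ⟨hx, hy⟩) ?_
    rintro ⟨x', y'⟩ ⟨hx', hy'⟩
    have h3 : restr n x'.1 = restr n x.1 :=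
      (mem_cyl_iff.1 hx'.1).trans (mem_cyl_iff.1 hx.1).symm
    refine ⟨t, d, ?_, hx', ?_⟩
    · simp only [h3]; exact hdt
    · simp only [h3]; exact hy'
  · rw [disjoint_left]
    rintro ⟨x, y⟩ hcl hzF
    rw [mem_closure_iff_nhds] at hcl
    set b := restr n x.1 with hb
    rcases Sp.cases y with ⟨t0, rfl⟩ | ⟨p, rfl⟩
    · -- a non-isolated point
      have h3 : ∀ d0, dat n b t0 = some d0 → x ∉ Reg n d0 := by
        intro d0 hd0 hx
        exact (hdat n b t0 d0 hd0).free1 x hx.1 _ (bx_self _ _) hx hzF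
      obtain ⟨W, hWo, hxW, hW⟩ : ∃ W : Set X, IsOpen W ∧ x ∈ W ∧
          ∀ x' ∈ W, ∀ d0, dat n b t0 = some d0 → x' ∉ Reg n d0 := by
        rcases hdt : dat n b t0 with _ | d0
        · exact ⟨univ, isOpen_univ, trivial, fun _ _ d0 h => absurd h (by simp)⟩
        · refine ⟨(Reg n d0)ᶜ, (Reg_closed n d0).isOpen_compl, h3 d0 hdt, ?_⟩
          intro x' hx' d0' h
          rw [← Option.some_injective _ h]
          exact hx'
      have ho : IsOpen ((W ∩ cyl n x.1) ×ˢ bx (Sp.a nY t0) (Nb t0 (R n b))) := by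
        refine (hWo.inter (cyl_open _ _)).prod (bx_open fun t' ht' => ?_)
        rw [← Sp.a_inj.1 ht']
        exact Nb_mem _ _
      obtain ⟨⟨x', y'⟩, ⟨⟨hx', hx''⟩, hy'⟩, t, d, hdt, hreg, hy''⟩ :=
        hcl _ (ho.mem_nhds ⟨⟨hxW, cyl_self _ _⟩, bx_self _ _⟩)
      have hb' : restr n x'.1 = b := mem_cyl_iff.1 hx''
      simp only at hdt hreg hy'' hy' hx'
      rw [hb'] at hdt hy''
      rw [mem_bx_a] at hy' hy''
      have hkey : dat n b t0 = some d := by
        rcases hy'' with h4 | ⟨q, hq, h4⟩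
        · rcases hy' with h5 | ⟨q', _, h5⟩
          · rw [h4] at h5
            rw [← Sp.a_inj.1 h5]; exact hdt
          · rw [h4] at h5
            exact absurd h5 Sp.a_ne_b
        · rcases hy' with h5 | ⟨q', hq', h5⟩
          · rw [h4] at h5
            exact absurd h5 Sp.b_ne_a
          · rw [h4] at h5
            have := Sp.b_inj.1 h5
            subst this
            by_cases htt : t = t0
            · rw [← htt]; exact hdt
            · obtain ⟨_, h6, h7⟩ := pair hq.2 hq' htt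
              rw [← hR n b t t0 h6 fun h hh => h7 h hh hh]
              exact hdt
      exact hW x' hx' d hkey hreg
    · -- an isolated point
      have h3 : ∀ t d0, dat n b t = some d0 → p ∈ N n b t → x ∉ Reg n d0 := by
        intro t d0 hd0 hp hx
        exact (hdat n b t d0 hd0).free1 x hx.1 _ (mem_bx_a.2 (Or.inr ⟨p, hp, rfl⟩)) hx hzF
      have hW1 : ∀ t, ∃ W : Set X, IsOpen W ∧ x ∈ W ∧
          ∀ x' ∈ W, ∀ d0, dat n b t = some d0 → p ∈ N n b t → x' ∉ Reg n d0 := by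
        intro t
        rcases hdt : dat n b t with _ | d0
        · exact ⟨univ, isOpen_univ, trivial, fun _ _ d0 h => absurd h (by simp)⟩
        · by_cases hp : p ∈ N n b t
          · refine ⟨(Reg n d0)ᶜ, (Reg_closed n d0).isOpen_compl, h3 t d0 hdt hp, ?_⟩
            intro x' hx' d0' h _
            rw [← Option.some_injective _ h]
            exact hx'
          · exact ⟨univ, isOpen_univ, trivial, fun _ _ d0 _ h => absurd h hp⟩
      choose W hWo hxW hW using hW1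
      have ho : IsOpen (((W p.1.1.1 ∩ W p.1.2.1) ∩ cyl n x.1) ×ˢ bx (Sp.b nY p) (∅ : Set I)) := by
        refine (((hWo _).inter (hWo _)).inter (cyl_open _ _)).prod (bx_open fun t' ht' => ?_)
        exact absurd ht' Sp.b_ne_a
      obtain ⟨⟨x', y'⟩, ⟨⟨hx', hx''⟩, hy'⟩, t, d, hdt, hreg, hy''⟩ :=
        hcl _ (ho.mem_nhds ⟨⟨⟨hxW _, hxW _⟩, cyl_self _ _⟩, bx_self _ _⟩)
      have hb' : restr n x'.1 = b := mem_cyl_iff.1 hx''
      simp only at hdt hreg hy'' hy' hx'
      rw [hb'] at hdt hy''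
      rw [mem_bx_b] at hy'
      rw [mem_bx_a, hy'] at hy''
      rcases hy'' with h4 | ⟨q, hq, h4⟩
      · exact absurd h4 Sp.b_ne_a
      · have := Sp.b_inj.1 h4
        subst this
        rcases eq_of_mem hq.2 with h5 | h5
        · exact hW t x' (h5 ▸ hx'.1) d hdt hq.1 hreg
        · exact hW t x' (h5 ▸ hx'.2) d hdt hq.1 hreg

/-- the covering of the part over the isolated points -/
theorem cover_I {E F : Set (X × Y)} (hE : IsClosed E) (hF : IsClosed F) (hd : Disjoint E F) :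
    ∃ U : ℕ → Set (X × Y), (∀ z ∈ E, (∃ p, z.2 = Sp.b nY p) → ∃ n, z ∈ U n) ∧
      ∀ n, IsOpen (U n) ∧ Disjoint (closure (U n)) F := by
  classical
  have h1 : ∀ p : I, ∃ V : Set X, IsOpen V ∧ {x | (x, Sp.b nY p) ∈ E} ⊆ V ∧
      Disjoint (closure V) {x | (x, Sp.b nY p) ∈ F} := by
    intro p
    have hc : Continuous fun x : X => (x, Sp.b nY p) := by fun_prop
    have hE' : IsClosed {x | (x, Sp.b nY p) ∈ E} := hE.preimage hc
    have hF' : IsClosed {x | (x, Sp.b nY p) ∈ F} := hF.preimage hc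
    have hd' : Disjoint {x | (x, Sp.b nY p) ∈ E} {x | (x, Sp.b nY p) ∈ F} := by
      rw [disjoint_left]
      intro x h h'
      exact disjoint_left.1 hd h h'
    obtain ⟨V, V', hV, hV', h3, h4, h5⟩ := normal_separation hE' hF' hd'
    exact ⟨V, hV, h3, (h5.closure_left hV').mono_right h4⟩
  choose V hVo hV1 hV2 using h1
  let U : ℕ → Set (X × Y) := fun j => {z | ∃ p : I, p.1.1.2.card + p.1.2.2.card ≤ j ∧
    z.1 ∈ V p ∧ z.2 = Sp.b nY p}
  have hpt : ∀ p : I, IsOpen ({Sp.b nY p} : Set Y) := by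
    intro p
    rw [Sp.isOpen_iff]
    intro t ht
    exact absurd ht Sp.a_ne_b
  refine ⟨U, ?_, fun j => ⟨?_, ?_⟩⟩
  · rintro ⟨x, y⟩ hz ⟨p, hp⟩
    simp only at hp
    subst hp
    exact ⟨_, p, le_rfl, hV1 p hz, rfl⟩
  · rw [isOpen_iff_mem_nhds]
    rintro ⟨x, y⟩ ⟨p, hp, hx, hy⟩
    refine mem_of_superset (((hVo p).prod (hpt p)).mem_nhds ⟨hx, hy⟩) ?_
    rintro ⟨x', y'⟩ ⟨hx', hy'⟩
    exact ⟨p, hp, hx', hy'⟩
  · rw [disjoint_left]
    rintro ⟨x, y⟩ hcl hzF
    rw [mem_closure_iff_nhds] at hcl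
    rcases Sp.cases y with ⟨t0, rfl⟩ | ⟨p, rfl⟩
    · have ho : IsOpen ((univ : Set X) ×ˢ
          bx (Sp.a nY t0) {p : I | j < p.1.1.2.card + p.1.2.2.card}) := by
        refine isOpen_univ.prod (bx_open fun t' ht' => ?_)
        rw [← Sp.a_inj.1 ht']
        exact nY_card _ _
      obtain ⟨⟨x', y'⟩, ⟨_, hy'⟩, q, hq, _, hy''⟩ := hcl _ (ho.mem_nhds ⟨trivial, bx_self _ _⟩)
      simp only at hy' hy''
      rw [mem_bx_a, hy''] at hy'
      rcases hy' with h4 | ⟨q', hq', h4⟩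
      · exact absurd h4 Sp.b_ne_a
      · have := Sp.b_inj.1 h4
        subst this
        exact absurd hq (not_le.2 hq')
    · have h3 : x ∉ closure (V p) := fun h => disjoint_left.1 (hV2 p) h hzF
      have ho : IsOpen ((closure (V p))ᶜ ×ˢ ({Sp.b nY p} : Set Y)) :=
        isClosed_closure.isOpen_compl.prod (hpt p)
      obtain ⟨⟨x', y'⟩, ⟨hx', hy'⟩, q, hq, hx'', hy''⟩ := hcl _ (ho.mem_nhds ⟨h3, rfl⟩)
      simp only at hx' hy' hx'' hy''
      rw [hy'', mem_singleton_iff] at hy'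
      have := Sp.b_inj.1 hy'
      subst this
      exact hx' (subset_closure hx'')

theorem has_cover {E F : Set (X × Y)} (hE : IsClosed E) (hF : IsClosed F) (hd : Disjoint E F) :
    HasSeparatingCover E F := by
  obtain ⟨U, hU1, hU2⟩ := cover_T hE hF hd
  obtain ⟨V, hV1, hV2⟩ := cover_I hE hF hd
  refine ⟨fun n => if n % 2 = 0 then U (n / 2) else V (n / 2), ?_, fun n => ?_⟩
  · intro z hz
    rw [mem_iUnion]
    rcases Sp.cases z.2 with ⟨t, ht⟩ | ⟨p, hp⟩
    · obtain ⟨n, hn⟩ := hU1 z hz ⟨t, ht⟩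
      refine ⟨2 * n, ?_⟩
      simpa using hn
    · obtain ⟨n, hn⟩ := hV1 z hz ⟨p, hp⟩
      refine ⟨2 * n + 1, ?_⟩
      have h1 : (2 * n + 1) % 2 = 1 := by omega
      have h2 : (2 * n + 1) / 2 = n := by omega
      simpa [h1, h2] using hn
  · by_cases h : n % 2 = 0
    · simpa [h] using hU2 (n / 2)
    · simpa [h] using hV2 (n / 2)

theorem XY_normal : NormalSpace (X × Y) := by
  refine ⟨fun E F hE hF hd => ?_⟩
  exact hasSeparatingCovers_iff_separatedNhds.1
    ⟨has_cover hE hF hd, has_cover hF hE hd.symm⟩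

end Pool.Agent.J6H38.CM
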