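import Pool.Agent.J6H38.CM.D

/-!
# The product `X × Z` is not normal
-/

set_option autoImplicit false

open Set Cardinal Filter Topology
open Pool.Agent.Helper70.RS

namespace Pool.Agent.J6H38.CM

/-- the point of `M` given by a sequence in `S` -/
def cc (c : Lam) : M := fun i => (c i : K)

theorem graph_closed (e : Lam → X) : IsClosed {z : X × Z | ∃ c, z = (e c, Sp.a nZ c)} := by
  rw [← isOpen_compl_iff, isOpen_iff_mem_nhds]
  rintro ⟨x, y⟩ hz
  rcases Sp.cases y with ⟨c, rfl⟩ | ⟨p, rfl⟩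
  · have hx : x ∈ ({e c} : Set X)ᶜ := fun h => hz ⟨c, by rw [mem_singleton_iff.1 h]⟩
    have ho : IsOpen (({e c} : Set X)ᶜ ×ˢ bx (Sp.a nZ c) (univ : Set I)) :=
      (pt_closed _).isOpen_compl.prod (bx_open fun _ _ => univ_mem)
    refine mem_of_superset (ho.mem_nhds ⟨hx, bx_self _ _⟩) ?_
    rintro ⟨x', y'⟩ ⟨hx', hy'⟩ ⟨c', h⟩
    have h1 : x' = e c' := congrArg Prod.fst h
    have h2 : y' = Sp.a nZ c' := congrArg Prod.snd h
    rw [mem_bx_a] at hy'
    rcases hy' with h3 | ⟨q, _, h3⟩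
    · simp only at h3
      rw [h2] at h3
      have := Sp.a_inj.1 h3
      subst this
      exact hx' h1
    · simp only at h3
      rw [h2] at h3
      exact Sp.a_ne_b h3
  · have ho : IsOpen ((univ : Set X) ×ˢ bx (Sp.b nZ p) (∅ : Set I)) :=
      isOpen_univ.prod (bx_open fun t h => absurd h Sp.b_ne_a)
    refine mem_of_superset (ho.mem_nhds ⟨trivial, bx_self _ _⟩) ?_
    rintro ⟨x', y'⟩ ⟨_, hy'⟩ ⟨c', h⟩
    have h2 : y' = Sp.a nZ c' := congrArg Prod.snd h
    rw [mem_bx_b] at hy'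
    simp only at hy'
    rw [h2] at hy'
    exact Sp.a_ne_b hy'

/-- the recursively defined sequence -/
noncomputable def recSeq (pick : ∀ n : ℕ, (Fin n → K) → S) : ℕ → S
  | n => pick n (fun j => (recSeq pick j.1 : K))
  termination_by n => n
  decreasing_by exact j.2

theorem recSeq_eq (pick : ∀ n : ℕ, (Fin n → K) → S) (n : ℕ) :
    recSeq pick n = pick n (fun j => (recSeq pick j.1 : K)) := by
  rw [recSeq]

theorem XZ_not_normal : ¬ NormalSpace (X × Z) := by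
  intro hnorm
  set E : Set (X × Z) := {z | ∃ c, z = (((cc c, true) : X), Sp.a nZ c)} with hE
  set F : Set (X × Z) := {z | ∃ c, z = (((cc c, false) : X), Sp.a nZ c)} with hF
  have hEc : IsClosed E := graph_closed fun c => ((cc c, true) : X)
  have hFc : IsClosed F := graph_closed fun c => ((cc c, false) : X)
  have hd : Disjoint E F := by
    rw [disjoint_left]
    rintro z ⟨c, rfl⟩ ⟨c', h⟩
    have h1 : ((cc c, true) : X) = (cc c', false) := congrArg Prod.fst h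
    exact absurd (congrArg Prod.snd h1 : true = false) (by simp)
  obtain ⟨U, V, hU, hV, hEU, hFV, hUV⟩ := normal_separation hEc hFc hd
  have hpt : ∀ c : Lam, ∃ (n : ℕ) (N : Set I), N ∈ nZ c ∧
      (∀ p ∈ N, (((cc c, true) : X), Sp.b nZ p) ∈ U) ∧
      ∀ x ∈ cyl n (cc c), x ≠ ((cc c, true) : X) → ∀ p ∈ N, (x, Sp.b nZ p) ∈ V := by
    intro c
    obtain ⟨A, B, hA, hB, h1, h2, h3⟩ := isOpen_prod_iff.1 hU _ _
      (hEU ⟨c, rfl⟩ : (((cc c, true) : X), Sp.a nZ c) ∈ U)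
    obtain ⟨N, hN, hNB⟩ := exists_bx hB h2
    obtain ⟨A', B', hA', hB', h1', h2', h3'⟩ := isOpen_prod_iff.1 hV _ _
      (hFV ⟨c, rfl⟩ : (((cc c, false) : X), Sp.a nZ c) ∈ V)
    obtain ⟨N', hN', hNB'⟩ := exists_bx hB' h2'
    obtain ⟨n, hn⟩ := X_isOpen_iff.1 hA' _ h1'
    refine ⟨n, N ∩ N', inter_mem (hN c rfl) (hN' c rfl), fun p hp => ?_, fun x hx hne p hp => ?_⟩
    · exact h3 ⟨h1, hNB (mem_bx_a.2 (Or.inr ⟨p, hp.1, rfl⟩))⟩
    · exact h3' ⟨hn x hx hne, hNB' (mem_bx_a.2 (Or.inr ⟨p, hp.2, rfl⟩))⟩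
  choose n N hN h1 h2 using hpt
  have hR : ∀ c k, ∃ R : Finset H, Nb (c, k) R ⊆ N c := fun c k => mem_nY.1 (mem_nZ.1 (hN c) k)
  choose R hR using hR
  -- a node where all the values are taken
  have hnode : ∃ (n0 : ℕ) (b : Fin n0 → K), ∀ α : S, ∃ c, n c = n0 ∧
      restr n0 (cc c) = b ∧ c n0 = α := by
    by_contra hcon
    push Not at hcon
    choose pick hpick using hcon
    exact hpick (n (recSeq pick)) (restr _ (cc (recSeq pick))) (recSeq pick) rfl rfl
      (recSeq_eq pick _)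
  obtain ⟨n0, b, hb⟩ := hnode
  choose c hc1 hc2 hc3 using hb
  obtain ⟨α, β, hne, hcomp⟩ := large n0 c hc3 fun α => R (c α) n0
  have hs : s (c α, n0) ≠ s (c β, n0) := by
    show ((c α n0 : S) : K) ≠ ((c β n0 : S) : K)
    rw [hc3, hc3]
    exact fun h => hne (Subtype.ext h)
  obtain ⟨p, hp, hp'⟩ := mem_Nb_of_compat (t := (c α, n0)) (t' := (c β, n0)) rfl hs hcomp
  have hU' := h1 (c α) p (hR _ _ hp)
  have hx : ((cc (c α), true) : X) ∈ cyl (n (c β)) (cc (c β)) := by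
    rw [hc1]
    exact mem_cyl_iff.2 ((hc2 α).trans (hc2 β).symm)
  have hxne : ((cc (c α), true) : X) ≠ (cc (c β), true) := by
    intro h
    have h3 : cc (c α) = cc (c β) := congrArg Prod.fst h
    exact hs (congrFun h3 n0)
  exact disjoint_left.1 hUV hU' (h2 (c β) _ hx hxne p (hR _ _ hp'))

end Pool.Agent.J6H38.CM
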